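import Pool.Agent.N162.CV.Pl

/-!
Statements on finite sets of points with a relation of high degree: the linear range.
-/

set_option autoImplicit false

open MvPolynomial

namespace Pool.Agent.N162.CW

open Pool.Agent.N162.CV

/-- CW/A2 -/
def StA2 : Prop := ∀ (Ω : Type) [Field Ω] [IsAlgClosed Ω] (ι : Type) (S : Finset ι)
  (p : ι → Fin 2 → Ω) (lam : ι → Ω) (m N : ℕ), 7 * N + 4 ≤ m → S.card < (N + 1) * (m + 2 - N) →
  Set.InjOn p S → (∀ i ∈ S, lam i ≠ 0) → PRel m S p lam →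
  ∃ G : MvPolynomial (Fin 2) Ω, G ≠ 0 ∧ G.totalDegree ≤ N ∧ ∀ i ∈ S, eval (p i) G = 0

/-- CW/B1 -/
def StB1 : Prop := ∀ (Ω : Type) [Field Ω] [Algebra ℂ Ω] [IsAlgClosed Ω] (ι : Type) (S : Finset ι)
  (q : ι → Fin 4 → Ω) (lam : ι → Ω) (m N : ℕ) (F : MvPolynomial (Fin 4) ℂ), S.Nonempty →
  (∀ i ∈ S, q i 0 = 1) → Set.InjOn q S → (∀ i ∈ S, lam i ≠ 0) →
  (∀ P : MvPolynomial (Fin 4) Ω, P.IsHomogeneous m → ∑ i ∈ S, lam i * eval (q i) P = 0) →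
  7 * N + 4 ≤ m → S.card < (N + 1) * (m + 2 - N) →
  (∃ o : Fin 4 → ℂ, o 0 = 0 ∧ eval o F ≠ 0) →
  ∃ (M M' : Matrix (Fin 4) (Fin 4) ℚ) (A B : MvPolynomial (Fin 2) Ω), M * M' = 1 ∧ M' * M = 1 ∧
    (∀ j, M 0 j = if j = 0 then 1 else 0) ∧ MonicY A ∧ MonicY B ∧
    1 ≤ A.totalDegree ∧ A.totalDegree ≤ N ∧ 1 ≤ B.totalDegree ∧ B.totalDegree ≤ N ∧
    (∀ i ∈ S, eval ![∑ j, (M 1 j : Ω) * q i j, ∑ j, (M 2 j : Ω) * q i j] A = 0 ∧
      eval ![∑ j, (M 1 j : Ω) * q i j, ∑ j, (M 3 j : Ω) * q i j] B = 0) ∧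
    eval (fun j => (M' j 3 : ℂ)) F ≠ 0

/-- CW/SP: points in space on three surfaces, two of which are cylinders -/
def StSP : Prop := ∀ (Ω : Type) [Field Ω] [IsAlgClosed Ω] (S : Finset (Fin 3 → Ω))
  (lam : (Fin 3 → Ω) → Ω) (m : ℕ) (A B : MvPolynomial (Fin 2) Ω) (C : MvPolynomial (Fin 3) Ω),
  S.Nonempty → (∀ q ∈ S, lam q ≠ 0) →
  (∀ P : MvPolynomial (Fin 3) Ω, P.totalDegree ≤ m → ∑ q ∈ S, lam q * eval q P = 0) →
  MonicY A → MonicY B → 1 ≤ A.totalDegree → 1 ≤ B.totalDegree →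
  (∀ q ∈ S, eval ![q 0, q 1] A = 0 ∧ eval ![q 0, q 2] B = 0 ∧ eval q C = 0) →
  {q : Fin 3 → Ω | eval ![q 0, q 1] A = 0 ∧ eval ![q 0, q 2] B = 0 ∧ eval q C = 0}.Finite →
  m + 4 ≤ A.totalDegree + B.totalDegree + C.totalDegree

/-- CW/GEN: independent points of a generic surface over a small field -/
def StGEN : Prop := ∀ (Ω : Type) [Field Ω] [CharZero Ω] [Algebra ℂ Ω] (d : ℕ)
  (F : MvPolynomial (Fin 4) ℂ), F.IsHomogeneous d →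
  AlgebraicIndependent ℚ (fun e : {e : Fin 4 →₀ ℕ // e.degree = d} => F.coeff e) →
  ∀ (S : Finset Ω) (Q : Finset (Fin 4 → Ω)),
  (∀ q ∈ Q, ∀ j, IsAlgebraic (IntermediateField.adjoin ℚ (S : Set Ω)) (q j)) →
  (∀ q ∈ Q, aeval q F = 0) →
  (∀ lam : (Fin 4 → Ω) → Ω, (∀ P : MvPolynomial (Fin 4) Ω, P.IsHomogeneous d →
    ∑ q ∈ Q, lam q * eval q P = 0) → ∀ q ∈ Q, lam q = 0) → Q.card ≤ S.card

/-- CW/IND: points on an irreducible plane curve which impose independent conditions -/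
def StIND : Prop := ∀ (Ω : Type) [Field Ω] [IsAlgClosed Ω] (ι : Type) (S : Finset ι)
  (p : ι → Fin 2 → Ω) (k : ℕ) (G : MvPolynomial (Fin 2) Ω), Set.InjOn p S → Irreducible G →
  (∀ i ∈ S, eval (p i) G = 0) → G.totalDegree ≤ k → G.totalDegree * k < S.card →
  ∃ Q ⊆ S, 2 * Q.card + G.totalDegree ^ 2 = 2 * G.totalDegree * k + 3 * G.totalDegree ∧
    ∀ lam : ι → Ω, PRel k Q p lam → ∀ i ∈ Q, lam i = 0

/-- CW/RED: reduction modulo a polynomial -/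
def StRED : Prop := ∀ (Ω : Type) [Field Ω] (G : MvPolynomial (Fin 2) Ω), MonicY G →
  1 ≤ G.totalDegree → ∀ (P : MvPolynomial (Fin 2) Ω) (k : ℕ), P.totalDegree ≤ k →
  ∃ P' : MvPolynomial (Fin 2) Ω, G ∣ P - P' ∧ P'.totalDegree ≤ k ∧
    P'.support.card ≤ G.totalDegree * (k + 1)

end Pool.Agent.N162.CW
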