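import Pool.Agent.N162.CV.Comb5
import Pool.Agent.N162.CW.Stm

/-!
Forms in space with given values at affine points.
-/

set_option autoImplicit false

open MvPolynomial

namespace Pool.Agent.N162.CW

open Pool.Agent.N162.CV

section

variable {Ω : Type} [Field Ω]

theorem td_aeval {σ τ : Type} (f : σ → MvPolynomial τ Ω) (hf : ∀ i, (f i).totalDegree ≤ 1)
    (P : MvPolynomial σ Ω) : (aeval f P).totalDegree ≤ P.totalDegree := by
  classical
  rw [aeval_def, eval₂_eq]
  refine totalDegree_finsetSum_le fun e he => ?_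
  refine (totalDegree_mul _ _).trans ?_
  have h1 : (algebraMap Ω (MvPolynomial τ Ω) (P.coeff e)).totalDegree = 0 := totalDegree_C _
  rw [h1, zero_add]
  refine (totalDegree_finset_prod _ _).trans ?_
  refine (Finset.sum_le_sum fun i _ => (totalDegree_pow _ _).trans
    (Nat.mul_le_mul_left _ (hf i))).trans ?_
  simp only [mul_one]
  exact le_totalDegree he

/-- affine coordinates -/
def tl {R : Type} (p : Fin 4 → R) : Fin 3 → R := ![p 1, p 2, p 3]

theorem exists_form3 (m : ℕ) (P : MvPolynomial (Fin 3) Ω) (hP : P.totalDegree ≤ m) :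
    ∃ Q : MvPolynomial (Fin 4) Ω, Q.IsHomogeneous m ∧
      ∀ (E : Type) [Field E] [Algebra Ω E] (p : Fin 4 → E), p 0 = 1 →
        aeval p Q = aeval (tl p) P := by
  classical
  refine ⟨∑ e ∈ P.support, C (P.coeff e) * (X 1 ^ e 0 * X 2 ^ e 1 * X 3 ^ e 2 *
    X 0 ^ (m - e 0 - e 1 - e 2)), ?_, ?_⟩
  · refine IsHomogeneous.sum _ _ _ fun e he => ?_
    have h1 : e 0 + e 1 + e 2 ≤ m := by
      have h2 := le_totalDegree he
      rw [Finsupp.sum_fintype _ _ (fun _ => rfl), Fin.sum_univ_three] at h2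
      omega
    have h3 : (X 1 ^ e 0 * X 2 ^ e 1 * X 3 ^ e 2 * X 0 ^ (m - e 0 - e 1 - e 2) :
        MvPolynomial (Fin 4) Ω).IsHomogeneous (1 * e 0 + 1 * e 1 + 1 * e 2 +
          1 * (m - e 0 - e 1 - e 2)) :=
      ((((isHomogeneous_X _ _).pow _).mul ((isHomogeneous_X _ _).pow _)).mul
        ((isHomogeneous_X _ _).pow _)).mul ((isHomogeneous_X _ _).pow _)
    have h5 := (isHomogeneous_C (Fin 4) (P.coeff e)).mul h3
    have h6 : 0 + (1 * e 0 + 1 * e 1 + 1 * e 2 + 1 * (m - e 0 - e 1 - e 2)) = m := by omega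
    rwa [h6] at h5
  · intro E _ _ p hp
    rw [map_sum]
    conv_rhs => rw [P.as_sum, map_sum]
    refine Finset.sum_congr rfl fun e _ => ?_
    rw [aeval_monomial, Finsupp.prod_fintype _ _ (fun i => pow_zero _), Fin.prod_univ_three]
    simp [tl, hp]

theorem eval_tl (m : ℕ) (P : MvPolynomial (Fin 3) Ω) (hP : P.totalDegree ≤ m) :
    ∃ Q : MvPolynomial (Fin 4) Ω, Q.IsHomogeneous m ∧
      ∀ p : Fin 4 → Ω, p 0 = 1 → eval p Q = eval (tl p) P := by
  obtain ⟨Q, h1, h2⟩ := exists_form3 m P hP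
  refine ⟨Q, h1, fun p hp => ?_⟩
  exact h2 Ω p hp

theorem toSpace {m : ℕ} {κ : (Fin 4 → Ω) → Ω} {c : (Fin 4 → Ω) →₀ ℤ} (h : Rel m κ c)
    (h0 : ∀ p, c p ≠ 0 → p 0 = 1) (R : MvPolynomial (Fin 3) Ω) {k : ℕ}
    (hk : R.totalDegree + k ≤ m) (P : MvPolynomial (Fin 3) Ω) (hP : P.totalDegree ≤ k) :
    ∑ p ∈ c.support, (c p : Ω) * κ p * eval (tl p) R * eval (tl p) P = 0 := by
  obtain ⟨Q, hQ, hQe⟩ := eval_tl m (R * P) ((totalDegree_mul _ _).trans (by omega))
  rw [← h Q hQ, Lam_apply]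
  refine Finset.sum_congr rfl fun p hp => ?_
  rw [hQe p (h0 p (Finsupp.mem_support_iff.1 hp)), map_mul]
  ring

/-- the cylinder over a plane curve -/
noncomputable def cyl (t : Ω) (P : MvPolynomial (Fin 2) Ω) : MvPolynomial (Fin 3) Ω :=
  aeval ![X 0, X 1 + C t * X 2] P

theorem td_cyl (t : Ω) (P : MvPolynomial (Fin 2) Ω) : (cyl t P).totalDegree ≤ P.totalDegree := by
  refine td_aeval _ (fun i => ?_) P
  fin_cases i
  · exact (totalDegree_X (R := Ω) (0 : Fin 3)).le
  · refine (totalDegree_add _ _).trans (max_le (totalDegree_X (R := Ω) (1 : Fin 3)).le ?_)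
    refine (totalDegree_mul _ _).trans ?_
    rw [totalDegree_C, totalDegree_X]

theorem aeval_cyl {E : Type} [Field E] [Algebra Ω E] (t : Ω) (P : MvPolynomial (Fin 2) Ω)
    (p : Fin 4 → E) :
    aeval (tl p) (cyl t P) = aeval ![p 1, p 2 + algebraMap Ω E t * p 3] P := by
  unfold cyl
  rw [← AlgHom.comp_apply]
  congr 1
  refine algHom_ext fun i => ?_
  fin_cases i
  · simp [tl]
  · simp [tl]

theorem eval_cyl (t : Ω) (P : MvPolynomial (Fin 2) Ω) (p : Fin 4 → Ω) :
    eval (tl p) (cyl t P) = eval (pr t p) P := by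
  exact aeval_cyl (E := Ω) t P p

theorem tl_inj {p q : Fin 4 → Ω} (hp : p 0 = 1) (hq : q 0 = 1) (h : tl p = tl q) : p = q := by
  funext i
  fin_cases i
  · exact hp.trans hq.symm
  · exact congrFun h 0
  · exact congrFun h 1
  · exact congrFun h 2

end

end Pool.Agent.N162.CW
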