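import Pool.Agent.N162.CW.Stm
import Pool.Agent.N162.CV.Facts
import Pool.Agent.N134.CW.A2
import Pool.Agent.N966.CW.B1
import Pool.Agent.N296.CW.SP
import Pool.Agent.N713.CW.Gen
import Pool.Agent.N279.CW.Ind
import Pool.Agent.N232.CW.Red

/-!
The proofs of the statements.
-/

set_option autoImplicit false

namespace Pool.Agent.N162.CW

open Pool.Agent.N162.CV

theorem fA2 : StA2 := Pool.Agent.N134.CW.a2_ fA1 fDIM
theorem fB1 : StB1 := Pool.Agent.N966.CW.b1_ fA2
theorem fSP : StSP := Pool.Agent.N296.CW.sp_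
theorem fGEN : StGEN := Pool.Agent.N713.CW.gen_
theorem fIND : StIND := Pool.Agent.N279.CW.ind_ fDIM fBEZ
theorem fRED : StRED := Pool.Agent.N232.CW.red_

end Pool.Agent.N162.CW
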